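import Pool.Agent.KACG.Hill

/-!
# H_ARZ: compactness of bounded energy sequences
-/

set_option autoImplicit false

open scoped ComplexConjugate ContDiff
open MeasureTheory Filter Topology

noncomputable section

namespace Pool.Agent.KACG.H77

theorem V_bdd {L : ℝ} {V : ℝ → ℝ} (hL : 0 < L) (hV : Continuous V)
    (hp : Function.Periodic V L) : ∃ C, ∀ s, |V s| ≤ C := by
  obtain ⟨C, hC⟩ := isCompact_Icc.exists_bound_of_continuousOn
    (hV.continuousOn (s := Set.Icc 0 L))
  refine ⟨C, fun s => ?_⟩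
  obtain ⟨y, hy, hys⟩ := hp.exists_mem_Ico₀ hL s
  rw [hys]
  exact hC y ⟨hy.1, hy.2.le⟩

theorem deriv_cont {u : ℝ → ℂ} (hu : ContDiff ℝ ∞ u) : Continuous (deriv u) :=
  hu.continuous_deriv (by simp)

/-- the bound of the derivative -/
theorem energy {L B C : ℝ} {V : ℝ → ℝ} (hL : 0 < L) (hV : Continuous V)
    (hC : ∀ s, |V s| ≤ C) {u : ℝ → ℂ} (hu : ContDiff ℝ ∞ u) (hm : mass L u = 1)
    (he : enr L V u ≤ B) : ∫ s in (0 : ℝ)..L, ‖deriv u s‖ ^ 2 ≤ B + C := by
  have hd := deriv_cont hu
  have huc := hu.continuous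
  have i1 : IntervalIntegrable (fun s => ‖deriv u s‖ ^ 2) volume 0 L :=
    (hd.norm.pow 2).intervalIntegrable _ _
  have i2 : IntervalIntegrable (fun s => ‖u s‖ ^ 2) volume 0 L :=
    (huc.norm.pow 2).intervalIntegrable _ _
  have h1 : ∫ s in (0 : ℝ)..L, (‖deriv u s‖ ^ 2 - C * ‖u s‖ ^ 2) ≤ enr L V u := by
    unfold enr
    apply intervalIntegral.integral_mono_on hL.le
    · exact i1.sub (i2.const_mul C)
    · exact ((hd.norm.pow 2).add (hV.mul (huc.norm.pow 2))).intervalIntegrable _ _
    · intro s _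
      have h2 := (abs_le.1 (hC s)).1
      have h3 : 0 ≤ ‖u s‖ ^ 2 := by positivity
      nlinarith
  rw [intervalIntegral.integral_sub i1 (i2.const_mul C), intervalIntegral.integral_const_mul] at h1
  unfold mass at hm
  rw [hm] at h1
  linarith

/-- the modulus of continuity -/
theorem modulus {L K : ℝ} {u : ℝ → ℂ} (hu : ContDiff ℝ ∞ u)
    (hK : ∫ s in (0 : ℝ)..L, ‖deriv u s‖ ^ 2 ≤ K) {ε : ℝ} (hε : 0 < ε) {s t : ℝ} (hs : 0 ≤ s)
    (hst : s ≤ t) (ht : t ≤ L) : ‖u t - u s‖ ≤ ε * K / 2 + (t - s) / (2 * ε) := by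
  have hd := deriv_cont hu
  have h1 : ∫ x in s..t, deriv u x = u t - u s :=
    intervalIntegral.integral_eq_sub_of_hasDerivAt
      (fun x _ => (hu.differentiable (by simp) x).hasDerivAt) (hd.intervalIntegrable _ _)
  have h2 : ‖u t - u s‖ ≤ ∫ x in s..t, ‖deriv u x‖ := by
    rw [← h1]
    exact intervalIntegral.norm_integral_le_integral_norm hst
  have h3 : ∫ x in s..t, ‖deriv u x‖ ≤ ∫ x in s..t, (ε / 2 * ‖deriv u x‖ ^ 2 + 1 / (2 * ε)) := by
    apply intervalIntegral.integral_mono_on hst (hd.norm.intervalIntegrable _ _)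
    · exact (((hd.norm.pow 2).const_mul _).add continuous_const).intervalIntegrable _ _
    · intro x _
      have h4 : 0 ≤ (ε * ‖deriv u x‖ - 1) ^ 2 / (2 * ε) := by positivity
      have h5 : (ε * ‖deriv u x‖ - 1) ^ 2 / (2 * ε) =
          ε / 2 * ‖deriv u x‖ ^ 2 + 1 / (2 * ε) - ‖deriv u x‖ := by
        field_simp
        ring
      linarith
  have h6 : ∫ x in s..t, (ε / 2 * ‖deriv u x‖ ^ 2 + 1 / (2 * ε)) =
      ε / 2 * (∫ x in s..t, ‖deriv u x‖ ^ 2) + (t - s) * (1 / (2 * ε)) := by
    rw [intervalIntegral.integral_add, intervalIntegral.integral_const_mul,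
      intervalIntegral.integral_const, smul_eq_mul]
    · exact ((hd.norm.pow 2).const_mul _).intervalIntegrable _ _
    · exact continuous_const.intervalIntegrable _ _
  have h7 : ∫ x in s..t, ‖deriv u x‖ ^ 2 ≤ ∫ x in (0 : ℝ)..L, ‖deriv u x‖ ^ 2 := by
    apply intervalIntegral.integral_mono_interval hs hst ht
    · exact Filter.Eventually.of_forall fun x => by positivity
    · exact (hd.norm.pow 2).intervalIntegrable _ _
  have h8 : ε / 2 * (∫ x in s..t, ‖deriv u x‖ ^ 2) ≤ ε / 2 * K :=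
    mul_le_mul_of_nonneg_left (h7.trans hK) (by positivity)
  calc ‖u t - u s‖ ≤ ε / 2 * K + (t - s) * (1 / (2 * ε)) := by linarith
    _ = _ := by
      field_simp

theorem modulus' {L K : ℝ} {u : ℝ → ℂ} (hu : ContDiff ℝ ∞ u)
    (hK : ∫ s in (0 : ℝ)..L, ‖deriv u s‖ ^ 2 ≤ K) {ε : ℝ} (hε : 0 < ε) {s t : ℝ}
    (hs : s ∈ Set.Icc 0 L) (ht : t ∈ Set.Icc 0 L) :
    ‖u t - u s‖ ≤ ε * K / 2 + |t - s| / (2 * ε) := by
  rcases le_total s t with h | h
  · rw [abs_of_nonneg (sub_nonneg.2 h)]
    exact modulus hu hK hε hs.1 h ht.2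
  · rw [norm_sub_rev, abs_sub_comm, abs_of_nonneg (sub_nonneg.2 h)]
    exact modulus hu hK hε ht.1 h hs.2

/-- the bound of the function -/
theorem sup_bound {L K : ℝ} (hL : 0 < L) {u : ℝ → ℂ} (hu : ContDiff ℝ ∞ u) (hm : mass L u = 1)
    (hK : ∫ s in (0 : ℝ)..L, ‖deriv u s‖ ^ 2 ≤ K) {s : ℝ} (hs : s ∈ Set.Icc 0 L) :
    ‖u s‖ ≤ (L / 2 + 1 / 2 + (K / 2 + L / 2) * L) / L := by
  have huc := hu.continuous
  have h1 : ∫ _t in (0 : ℝ)..L, ‖u s‖ ≤
      ∫ t in (0 : ℝ)..L, (1 / 2 * ‖u t‖ ^ 2 + (1 / 2 + (K / 2 + L / 2))) := by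
    apply intervalIntegral.integral_mono_on hL.le (continuous_const.intervalIntegrable _ _)
    · exact (((huc.norm.pow 2).const_mul _).add continuous_const).intervalIntegrable _ _
    · intro t ht
      have h2 := modulus' hu hK one_pos ht hs
      have h3 : |s - t| ≤ L := by
        rw [abs_le]
        constructor <;> linarith [hs.1, hs.2, ht.1, ht.2]
      have h4 : ‖u s‖ ≤ ‖u t‖ + ‖u s - u t‖ := by
        have := norm_add_le (u t) (u s - u t)
        rwa [add_sub_cancel] at this
      have h5 : 0 ≤ (‖u t‖ - 1) ^ 2 := sq_nonneg _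
      have h6 : |s - t| / (2 * 1) ≤ L / 2 := by
        rw [mul_one]
        exact div_le_div_of_nonneg_right h3 (by norm_num)
      nlinarith
  rw [intervalIntegral.integral_const, smul_eq_mul, sub_zero,
    intervalIntegral.integral_add, intervalIntegral.integral_const_mul,
    intervalIntegral.integral_const, smul_eq_mul, sub_zero] at h1
  · unfold mass at hm
    rw [hm] at h1
    rw [le_div_iff₀ hL]
    nlinarith
  · exact ((huc.norm.pow 2).const_mul _).intervalIntegrable _ _
  · exact continuous_const.intervalIntegrable _ _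

/-- the absolute value of a quasi-periodic function is periodic -/
theorem norm_per {L b : ℝ} {w : ℝ → ℂ}
    (hw : ∀ s, w (s + L) = Complex.exp (Complex.I * (b * L : ℝ)) * w s) :
    Function.Periodic (fun s => ‖w s‖) L := by
  intro s
  show ‖w (s + L)‖ = ‖w s‖
  rw [hw, norm_mul, mul_comm Complex.I, Complex.norm_exp_ofReal_mul_I, one_mul]

theorem arz : ArzStmt := by
  intro L V b B hL hV hp u hu hB
  obtain ⟨C, hC⟩ := V_bdd hL hV.continuous hp
  set K := B + C with hKdef
  have hK : ∀ n, ∫ s in (0 : ℝ)..L, ‖deriv (u n) s‖ ^ 2 ≤ K := fun n =>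
    energy hL hV.continuous hC (hu n).1.1 (hu n).2 (hB n)
  have hK0 : 0 ≤ K := le_trans (intervalIntegral.integral_nonneg hL.le fun s _ => by positivity)
    (hK 0)
  set M := (L / 2 + 1 / 2 + (K / 2 + L / 2) * L) / L with hM
  have hsup : ∀ n, ∀ s ∈ Set.Icc 0 L, ‖u n s‖ ≤ M := fun n s hs =>
    sup_bound hL (hu n).1.1 (hu n).2 (hK n) hs
  -- the modulus of continuity
  have hmod : ∀ n, ∀ s ∈ Set.Icc 0 L, ∀ t ∈ Set.Icc 0 L,
      dist (u n s) (u n t) ≤ (K / 2 + 1 / 2) * Real.sqrt (dist s t) := by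
    intro n s hs t ht
    rcases eq_or_ne s t with rfl | hne
    · simp
    · have hd : 0 < dist s t := dist_pos.2 hne
      have h1 := modulus' (hu n).1.1 (hK n) (Real.sqrt_pos.2 hd) ht hs
      rw [dist_eq_norm, Real.dist_eq]
      rw [Real.dist_eq] at h1 hd
      have h2 : |s - t| / (2 * Real.sqrt |s - t|) = Real.sqrt |s - t| / 2 := by
        rw [div_eq_div_iff (by positivity) (by norm_num)]
        have := Real.mul_self_sqrt hd.le
        nlinarith
      rw [h2] at h1
      linarith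
  -- Arzela-Ascoli
  let F : ℕ → BoundedContinuousFunction (Set.Icc (0 : ℝ) L) ℂ := fun n =>
    BoundedContinuousFunction.mkOfCompact ⟨fun x => u n x,
      (hu n).1.1.continuous.comp continuous_subtype_val⟩
  have hF : ∀ n (x : Set.Icc (0 : ℝ) L), F n x = u n x := fun n x => rfl
  have hcomp : IsCompact (closure (Set.range F)) := by
    apply BoundedContinuousFunction.arzela_ascoli (Metric.closedBall (0 : ℂ) M)
      (isCompact_closedBall _ _)
    · rintro f x ⟨n, rfl⟩
      rw [mem_closedBall_zero_iff, hF]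
      exact hsup n x x.2
    · apply Metric.equicontinuous_of_continuity_modulus
        (fun r => (K / 2 + 1 / 2) * Real.sqrt r)
      · have : Tendsto (fun r : ℝ => (K / 2 + 1 / 2) * Real.sqrt r) (𝓝 0)
            (𝓝 ((K / 2 + 1 / 2) * Real.sqrt 0)) :=
          ((continuous_const.mul Real.continuous_sqrt).tendsto 0)
        rwa [Real.sqrt_zero, mul_zero] at this
      · rintro x y ⟨f, n, rfl⟩
        exact hmod n x x.2 y y.2
  obtain ⟨f, -, k, hk, hlim⟩ := hcomp.tendsto_subseq (x := F)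
    (fun n => subset_closure (Set.mem_range_self n))
  have hcau : CauchySeq (F ∘ k) := hlim.cauchySeq
  -- uniform Cauchy property on the line
  have hunif : ∀ ε > 0, ∃ N, ∀ m ≥ N, ∀ n ≥ N, ∀ s : ℝ, ‖u (k m) s - u (k n) s‖ < ε := by
    intro ε hε
    obtain ⟨N, hN⟩ := Metric.cauchySeq_iff.1 hcau ε hε
    refine ⟨N, fun m hm n hn s => ?_⟩
    have hper : Function.Periodic (fun s => ‖u (k m) s - u (k n) s‖) L := by
      apply norm_per (b := b) (w := fun s => u (k m) s - u (k n) s)
      intro s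
      show u (k m) (s + L) - u (k n) (s + L) = _ * (u (k m) s - u (k n) s)
      rw [(hu (k m)).1.2, (hu (k n)).1.2, mul_sub]
    obtain ⟨y, hy, hys⟩ := hper.exists_mem_Ico₀ hL s
    have hy' : y ∈ Set.Icc (0 : ℝ) L := ⟨hy.1, hy.2.le⟩
    have h1 : ‖u (k m) s - u (k n) s‖ = ‖u (k m) y - u (k n) y‖ := hys
    rw [h1, ← dist_eq_norm]
    have h2 := BoundedContinuousFunction.dist_coe_le_dist (f := F (k m)) (g := F (k n))
      (⟨y, hy'⟩ : Set.Icc (0 : ℝ) L)
    exact lt_of_le_of_lt h2 (hN m hm n hn)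
  have hptc : ∀ s, CauchySeq fun n => u (k n) s := by
    intro s
    rw [Metric.cauchySeq_iff]
    intro ε hε
    obtain ⟨N, hN⟩ := hunif ε hε
    exact ⟨N, fun m hm n hn => by rw [dist_eq_norm]; exact hN m hm n hn s⟩
  choose v hv using fun s => cauchySeq_tendsto_of_complete (hptc s)
  have hU : TendstoUniformly (fun n => u (k n)) v atTop := by
    rw [Metric.tendstoUniformly_iff]
    intro ε hε
    obtain ⟨N, hN⟩ := hunif (ε / 2) (half_pos hε)
    filter_upwards [eventually_ge_atTop N] with n hn s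
    have h1 : ‖v s - u (k n) s‖ ≤ ε / 2 := by
      apply le_of_tendsto ((hv s).sub tendsto_const_nhds).norm
      filter_upwards [eventually_ge_atTop N] with m hm
      exact (hN m hm n hn s).le
    rw [dist_eq_norm]
    linarith
  have hvc : Continuous v :=
    hU.continuous (Filter.Eventually.of_forall fun n => (hu (k n)).1.1.continuous).frequently
  refine ⟨k, v, hk, hvc, ?_, ?_, hU⟩
  · intro s
    apply tendsto_nhds_unique (hv (s + L))
    have : (fun n => u (k n) (s + L)) =
        fun n => Complex.exp (Complex.I * (b * L : ℝ)) * u (k n) s := by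
      funext n
      exact (hu (k n)).1.2 s
    rw [this]
    exact (hv s).const_mul _
  · have h1 : Tendsto (fun n => mass L (u (k n))) atTop (𝓝 (mass L v)) := by
      unfold mass
      apply intervalIntegral.tendsto_integral_filter_of_dominated_convergence (fun _ => M ^ 2)
      · exact Filter.Eventually.of_forall fun n =>
          ((hu (k n)).1.1.continuous.norm.pow 2).aestronglyMeasurable
      · refine Filter.Eventually.of_forall fun n => Filter.Eventually.of_forall fun s hs => ?_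
        rw [Set.uIoc_of_le hL.le] at hs
        have h2 := hsup (k n) s ⟨hs.1.le, hs.2⟩
        rw [Real.norm_eq_abs, abs_of_nonneg (by positivity)]
        exact pow_le_pow_left₀ (norm_nonneg _) h2 2
      · exact intervalIntegrable_const
      · exact Filter.Eventually.of_forall fun s _ => ((hv s).norm.pow 2)
    have h2 : (fun n => mass L (u (k n))) = fun _ => 1 := by
      funext n
      exact (hu (k n)).2
    rw [h2] at h1
    exact tendsto_nhds_unique h1 tendsto_const_nhds

end Pool.Agent.KACG.H77
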